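import Mathlib

set_option autoImplicit false

namespace Pool.Agent.Results.MP_76d2cf_co.Counter

open Finset

/-- Number of points of `S` in `(1/t)ℤ²`. -/
noncomputable def cnt (S : Set (ℝ × ℝ)) (t : ℕ) : ℕ :=
  {z : ℤ × ℤ | ((z.1 : ℝ) / t, (z.2 : ℝ) / t) ∈ S}.ncard

/-- `E` is a quasipolynomial of degree at most 2 whose coefficients have minimal periods `p`. -/
def QP (E : ℕ → ℕ) (p : Fin 3 → ℕ) : Prop :=
  ∃ c : Fin 3 → ℕ → ℚ, (∀ t, 1 ≤ t → (E t : ℚ) = ∑ k, c k t * t ^ (k : ℕ)) ∧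
    ∀ k, IsLeast {q | 0 < q ∧ Function.Periodic (c k) q} (p k)

def poly (V : Finset (ℚ × ℚ)) : Set (ℝ × ℝ) :=
  convexHull ℝ ((fun v : ℚ × ℚ => ((v.1 : ℝ), (v.2 : ℝ))) '' V)

def V0 : Finset (ℚ × ℚ) := {(0, -2), (1 / 2, 0), (0, 2)}

lemma poly_eq : poly V0 = {x | 0 ≤ x.1 ∧ x.2 ≤ 2 - 4 * x.1 ∧ -x.2 ≤ 2 - 4 * x.1} := by
  apply Set.Subset.antisymm
  · apply convexHull_min
    · rintro _ ⟨v, hv, rfl⟩
      simp only [V0, coe_insert, coe_singleton, Set.mem_insert_iff, Set.mem_singleton_iff] at hv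
      rcases hv with rfl | rfl | rfl <;> norm_num
    · rintro x ⟨h1, h2, h3⟩ y ⟨h4, h5, h6⟩ a b ha hb hab
      simp only [Set.mem_setOf_eq, Prod.fst_add, Prod.snd_add, Prod.smul_fst, Prod.smul_snd,
        smul_eq_mul]
      refine ⟨by positivity, by nlinarith, by nlinarith⟩
  · rintro ⟨x, y⟩ ⟨h1, h2, h3⟩
    refine mem_convexHull_of_exists_fintype ![(2 - 4 * x - y) / 4, 2 * x, (2 - 4 * x + y) / 4]
      ![(0, -2), (1 / 2, 0), (0, 2)] ?_ ?_ ?_ ?_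
    · intro i; fin_cases i <;> simp <;> linarith
    · simp [Fin.sum_univ_three]; ring
    · intro i
      fin_cases i
      · exact ⟨(0, -2), by simp [V0], by simp⟩
      · exact ⟨(1 / 2, 0), by simp [V0], by simp⟩
      · exact ⟨(0, 2), by simp [V0], by simp⟩
    · simp [Fin.sum_univ_three]; constructor <;> ring

lemma int_eq : interior (poly V0) = {x | 0 < x.1 ∧ x.2 < 2 - 4 * x.1 ∧ -x.2 < 2 - 4 * x.1} := by
  rw [poly_eq]
  apply Set.Subset.antisymm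
  · rintro ⟨x, y⟩ h
    obtain ⟨ε, hε, hb⟩ := Metric.mem_nhds_iff.mp (mem_interior_iff_mem_nhds.mp h)
    have h1 := @hb (x - ε / 2, y) (by simp [Prod.dist_eq, Real.dist_eq, abs_of_pos hε, hε])
    have h2 := @hb (x + ε / 2, y) (by simp [Prod.dist_eq, Real.dist_eq, abs_of_pos hε, hε])
    simp only [Set.mem_setOf_eq] at *
    exact ⟨by linarith, by linarith, by linarith⟩
  · refine interior_maximal (fun x h => ⟨h.1.le, h.2.1.le, h.2.2.le⟩) ?_
    simp only [Set.setOf_and]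
    refine IsOpen.inter ?_ (IsOpen.inter ?_ ?_) <;> exact isOpen_lt (by fun_prop) (by fun_prop)

lemma G (c : ℕ) (hc : c ≤ 8) (s : ℕ) : ∀ n, s ≤ n →
    ((∑ X ∈ range n, (8 * s - 8 * X - c) : ℕ) : ℚ) = 4 * s * (s + 1) - c * s := by
  induction s with
  | zero => intro n _; simp
  | succ s ih =>
    intro n hn
    obtain ⟨n, rfl⟩ : ∃ m, n = m + 1 := ⟨n - 1, by omega⟩
    rw [sum_range_succ', sum_congr rfl (g := fun X => 8 * s - 8 * X - c) fun X _ => by omega,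
      Nat.cast_add, ih n (by omega), mul_zero, Nat.sub_zero, Nat.cast_sub (by omega)]
    push_cast; ring

lemma col (t : ℕ) (S : Set (ℤ × ℤ)) (C : ℕ → Finset ℤ)
    (h : ∀ z, z ∈ S ↔ ∃ X < t, z.1 = X + 1 ∧ z.2 ∈ C X) : S.ncard = ∑ X ∈ range t, (C X).card := by
  have : S = ((range t).sigma C).image fun w => ((w.1 : ℤ) + 1, w.2) := by
    ext z
    simp only [h, coe_image, Set.mem_image, mem_coe, mem_sigma, mem_range]
    constructor
    · rintro ⟨X, h1, h2, h3⟩; exact ⟨⟨X, z.2⟩, ⟨h1, h3⟩, Prod.ext h2.symm rfl⟩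
    · rintro ⟨⟨X, Y⟩, ⟨h1, h2⟩, rfl⟩; exact ⟨X, h1, rfl, h2⟩
  rw [this, Set.ncard_coe_finset, card_image_of_injective, card_sigma]
  rintro ⟨a, b⟩ ⟨c, d⟩ h
  simp only [Prod.mk.injEq, add_left_inj, Nat.cast_inj] at h
  obtain ⟨rfl, rfl⟩ := h
  rfl

lemma mem (t : ℕ) (ht : 1 ≤ t) (z : ℤ × ℤ) :
    ((z.1 : ℝ) / t, (z.2 : ℝ) / t) ∈ interior (poly V0) ↔
      ∃ X < t, z.1 = X + 1 ∧ z.2 ∈ Ioo (4 * X + 4 - 2 * t : ℤ) (2 * t - 4 * X - 4) := by
  have h0 : (0 : ℝ) < t := by exact_mod_cast ht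
  have e : 2 - 4 * ((z.1 : ℝ) / t) = ((2 * t - 4 * z.1 : ℤ) : ℝ) / t := by push_cast; field_simp
  rw [int_eq, Set.mem_setOf_eq, e, ← neg_div, div_lt_div_iff_of_pos_right h0,
    div_lt_div_iff_of_pos_right h0, div_pos_iff_of_pos_right h0, ← Int.cast_neg, Int.cast_lt,
    Int.cast_lt, Int.cast_pos]
  simp only [mem_Ioo]
  constructor
  · rintro ⟨h1, h2, h3⟩; exact ⟨(z.1 - 1).toNat, by omega, by omega, by omega, by omega⟩
  · rintro ⟨X, h1, h2, h3, h4⟩; omega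

lemma per1 (x : ℚ) : IsLeast {q | 0 < q ∧ Function.Periodic (fun _ : ℕ => x) q} 1 :=
  ⟨⟨one_pos, fun _ => rfl⟩, fun _ h => h.1⟩

theorem result : ∃ (V : Finset (ℚ × ℚ)) (a b : ℚ) (p w : Fin 3 → ℕ), (a, b) ≠ (0, 0) ∧
    (interior (poly V) ∩ {x | a * x.1 + b * x.2 = 0}).Nonempty ∧
    QP (cnt (interior (poly V) \ {x | a * x.1 + b * x.2 = 0})) p ∧ QP (cnt (interior (poly V))) w ∧
    ¬ p 1 * w 0 ∣ p 0 * w 1 := by
  refine ⟨V0, 0, 1, ![1, 1, 1], ![2, 1, 1], by simp, ⟨(1 / 4, 0), by rw [int_eq]; norm_num, by simp⟩,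
    ⟨![fun _ => 2, fun _ => -3, fun _ => 1], fun t ht => ?_, fun k => ?_⟩,
    ⟨![fun t => if t % 2 = 0 then 1 else 3 / 2, fun _ => -5 / 2, fun _ => 1], fun t ht => ?_,
      fun k => ?_⟩, by simp⟩
  · rw [cnt, col t _ (fun X => (Ioo (4 * X + 4 - 2 * t : ℤ) (2 * t - 4 * X - 4)).erase 0) fun z => by
      have h0 : (t : ℝ) ≠ 0 := by positivity
      rw [Set.mem_setOf_eq, Set.mem_diff, mem t ht]
      simp only [mem_erase]
      simp [h0]
      exact ⟨fun ⟨⟨X, h1, h2, h3⟩, h4⟩ => ⟨X, h1, h2, h4, h3⟩,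
        fun ⟨X, h1, h2, h4, h3⟩ => ⟨⟨X, h1, h2, h3⟩, h4⟩⟩]
    simp only [card_erase_eq_ite, Int.card_Ioo, mem_Ioo, Fin.sum_univ_three]
    rcases Nat.even_or_odd' t with ⟨s, rfl | rfl⟩
    · obtain ⟨s, rfl⟩ : ∃ m, s = m + 1 := ⟨s - 1, by omega⟩
      rw [sum_congr rfl (g := fun X => 8 * s - 8 * X - 2) fun X _ => by split_ifs <;> omega,
        G 2 (by omega) s _ (by omega)]
      simp; ring
    · rw [sum_congr rfl (g := fun X => 8 * s - 8 * X - 6) fun X _ => by split_ifs <;> omega,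
        G 6 (by omega) s _ (by omega)]
      simp; ring
  · fin_cases k <;> exact per1 _
  · rw [cnt, col t {z : ℤ × ℤ | ((z.1 : ℝ) / t, (z.2 : ℝ) / t) ∈ interior (poly V0)} _ (mem t ht)]
    simp only [Int.card_Ioo, Fin.sum_univ_three]
    rcases Nat.even_or_odd' t with ⟨s, rfl | rfl⟩
    · obtain ⟨s, rfl⟩ : ∃ m, s = m + 1 := ⟨s - 1, by omega⟩
      rw [sum_congr rfl (g := fun X => 8 * s - 8 * X - 1) fun X _ => by omega,
        G 1 (by omega) s _ (by omega)]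
      simp; ring
    · rw [sum_congr rfl (g := fun X => 8 * s - 8 * X - 5) fun X _ => by omega,
        G 5 (by omega) s _ (by omega)]
      simp; ring
  · fin_cases k
    · refine ⟨⟨two_pos, fun t => by simp⟩, fun q h => ?_⟩
      by_contra hq
      obtain rfl : q = 1 := by have := h.1; simp at hq; omega
      have := h.2 0
      norm_num at this
    · exact per1 _
    · exact per1 _

end Pool.Agent.Results.MP_76d2cf_co.Counter
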